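import Pool.Agent.Work.MP_46fa68_67.RunAbs
import Pool.Agent.Work.MP_46fa68_80.Cells
import Pool.Agent.Work.MP_46fa68_27.LargeU

/-!
# MP_46fa68_co (S4): `CrossU`, `CrudeU` (helper67)

`cross_w : 22 ≤ t → CrossU t`, `cross_u : 26 ≤ t → CrossU t`, `crude_u : 26 ≤ t → CrudeU t`.
-/

set_option autoImplicit false

open Finset

namespace Pool.NW.RV

open Pool.NV Pool.OB Pool.JM Pool.EGL Pool.JM.FR

theorem fD_V (m t K : ℕ) (B : Finset ℕ) :
    fD FV m t 100 K B = HI K m t 2 (vC cfV m 100) (tauC cfV m 100) B * 100 := by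
  unfold fD FV
  change pev [] _ + HI K m t 2 (vC cfV m 100) (tauC cfV m 100) B * ((100 : ℕ) : ℝ) = _
  simp [pev]

theorem fD_E (m t K : ℕ) (B : Finset ℕ) :
    fD FE m t 100 K B = HI K m t 3 (vC cfD m 100) (tauC cfD m 100) B * 100 := by
  unfold fD FE
  change pev [] _ + HI K m t 3 (vC cfD m 100) (tauC cfD m 100) B * ((100 : ℕ) : ℝ) = _
  simp [pev]

theorem fD_C (m t K : ℕ) (B : Finset ℕ) :
    fD FC m t 100 K B = 122 + HI K m t 4 (vC cfC m 100) (tauC cfC m 100) B * 100 := by
  unfold fD FC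
  change pev [122] _ + HI K m t 4 (vC cfC m 100) (tauC cfC m 100) B * ((100 : ℕ) : ℝ) = _
  simp [pev]

/-- one run for the cross function -/
theorem cross_of {D : Dat} (ha : D.a = FK 350) (hk : D.k = FK 350) (hb : D.b = FV) (hR : D.R = [])
    {X : NI} (hc : chk D X = true) {t : ℕ} (ht : 0 < t) (hx : Mem (1 / (t : ℝ)) X)
    (Hb : Bud D FV N3.b t (t + 1) 100) : CrossU t := by
  intro k L b s B h2 hN
  have h := run_abs ha hk (by norm_num) hR hc ht (den := 100) (tb := t + 1) (by norm_num) hx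
    (by rw [hb]; exact Hb) h2 hN
  rw [hb, fD_V, abs_mul] at h
  have e : |((100 : ℝ))| = 100 := abs_of_pos (by norm_num)
  rw [e] at h
  push_cast at h
  linarith

/-- **the cross function, `m1 ≥ 22`** -/
theorem cross_w (t : ℕ) (ht : 22 ≤ t) : CrossU t := by
  rcases Nat.lt_or_ge t 26 with h | h
  · obtain ⟨d, hd⟩ : ∃ d, t = 22 + d := ⟨t - 22, by omega⟩
    rcases Nat.eq_zero_or_pos d with h0 | h0
    · subst h0
      have e : t = 22 := by omega
      subst e
      exact cross_of rfl rfl rfl rfl run_w (by norm_num) (Cells.mem_pt (by norm_num)) (bud_W 0)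
    · obtain ⟨d', rfl⟩ : ∃ d', d = d' + 1 := ⟨d - 1, by omega⟩
      have e : t = 23 + d' := by omega
      have Hb := bud_V d'
      rw [← e] at Hb
      have h3 : t = 23 ∨ t = 24 ∨ t = 25 := by omega
      rcases h3 with rfl | rfl | rfl
      · exact cross_of rfl rfl rfl rfl run_p23 (by norm_num) (Cells.mem_pt (by norm_num)) Hb
      · exact cross_of rfl rfl rfl rfl run_p24 (by norm_num) (Cells.mem_pt (by norm_num)) Hb
      · exact cross_of rfl rfl rfl rfl run_p25 (by norm_num) (Cells.mem_pt (by norm_num)) Hb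
  · obtain ⟨d, hd⟩ : ∃ d, t = 23 + d := ⟨t - 23, by omega⟩
    obtain ⟨i, hi, hx⟩ := Cells.exists_cell_inv (k := 256) (n := 10) (m := t) (by norm_num) (by norm_num)
      (by omega) (by omega)
    have Hb := bud_V d
    rw [← hd] at Hb
    exact cross_of rfl rfl rfl rfl (run_v i hi) (by omega) hx Hb

/-- **the cross function of the uniform range** -/
theorem cross_u (t : ℕ) (ht : 26 ≤ t) : CrossU t := cross_w t (by omega)

/-- **the crude bounds of the uniform range** -/
theorem crude_u (t : ℕ) (ht : 26 ≤ t) : CrudeU t := by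
  intro k L b s B h2 hN _
  obtain ⟨d, hd⟩ : ∃ d, t = 26 + d := ⟨t - 26, by omega⟩
  obtain ⟨i, hi, hx⟩ := Cells.exists_cell_inv (k := 26) (n := 1) (m := t) (by norm_num) (by norm_num)
    (by omega) (by omega)
  have e : i = 0 := by omega
  subst e
  have HC := bud_C d
  have HE := bud_E d
  rw [← hd] at HC HE
  have e100 : |((100 : ℝ))| = 100 := abs_of_pos (by norm_num)
  constructor
  · have h := run_abs (D := DC) (n := 100000) rfl rfl (by norm_num) rfl run_c (by omega) (den := 100)
      (tb := t - 1) (by norm_num) hx HC h2 hN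
    have h' : |fD FC t (t - 1) 100 (k + 2) B| ≤ ((100000 : ℤ) : ℝ) := h
    rw [fD_C] at h'
    push_cast at h'
    have e2 : (122 : ℝ) + HI (k + 2) t (t - 1) 4 (vC cfC t 100) (tauC cfC t 100) B * 100 =
        (61 / 50 + HI (k + 2) t (t - 1) 4 (vC cfC t 100) (tauC cfC t 100) B) * 100 := by ring
    rw [e2, abs_mul, e100] at h'
    linarith
  · have h := run_abs (D := DD) (n := 100000) rfl rfl (by norm_num) rfl run_d (by omega) (den := 100)
      (tb := t) (by norm_num) hx HE h2 hN
    have h' : |fD FE t t 100 (k + 2) B| ≤ ((100000 : ℤ) : ℝ) := h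
    rw [fD_E, abs_mul, e100] at h'
    push_cast at h'
    linarith

end Pool.NW.RV
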