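import Pool.Agent.Work.MP_46fa68_56.RDefs19
import Pool.Agent.Work.MP_46fa68_62.NF19

/-!
# MP_46fa68_co: block NF1X (from helper62's `nf1_19`, `nf1_19h`)
-/

set_option autoImplicit false

open Finset

namespace Pool.JM.LR

theorem blk_NF1X : Stmt_NF1X := by
  intro m y hm hy
  refine ⟨?_, fun h => ?_⟩
  · change FF m y ≤ 125 / 10000
    refine le_trans (N62.nf1_19 hm hy) ?_
    norm_num
  · change FF m y ≤ 1 / 1000
    refine le_trans (N62.nf1_19h hm h) ?_
    norm_num

end Pool.JM.LR
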