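import Pool.Agent.Work.MP_46fa68_23.Mo8c
import Pool.Agent.Work.MP_46fa68_38.Far10

/-!
# MP_46fa68_co (S4): the budgets of a run (helper67)
-/

set_option autoImplicit false

open Finset

namespace Pool.NW.RV

open Pool.NV Pool.OB Pool.JM Pool.JM.FR

theorem lD_abs {F : FD} {m t den K : ℕ} {B : Finset ℕ} {x : ℕ} :
    |lD F m t den K B x| = |HL K m t F.cf.v.length (vC F.cf m den) (tauC F.cf m den) B x| * den := by
  unfold lD
  rw [abs_mul, Nat.abs_cast]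

theorem xD_abs {F : FD} {m t den K : ℕ} {B : Finset ℕ} {x : ℕ} :
    |xD F m t den K B x| = |HIx K m t F.cf.v.length (vC F.cf m den) (tauC F.cf m den) B x| * den := by
  unfold xD
  rw [abs_mul, Nat.abs_cast]

theorem bud_mk {D : Dat} {F : FD} {sel : N3 → ℕ} {mu d t den Lc nC : ℕ} {X : NI}
    (hA : Adm F.u F.cf mu d t) (ht1 : 1 ≤ t) (hden : 0 < den)
    (hX : Mem (1 / ((mu + d : ℕ) : ℝ)) X) (hlen : F.u = 1 → 1 ≤ F.cf.v.length)
    (okL : okBL F.u mu Lc nC (F.cf.v.length + 2) = true) (hLc : 2 * mu / 3 ≤ Lc)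
    (bL : budLow F.u mu F.cf X Lc nC ≤ sel D.low) (hlows : D.lows = [])
    (hfar : ∀ i1, i1 < D.n1 → ∃ J J' : ℕ, (J' : ℤ) = J + F.u ∧
      okBF F.u mu 1 J' (F.cf.v.length + 2) = true ∧ D.J2.getD i1 0 = J + D.o ∧
      budF F.u mu 1 F.cf X J' ≤ sel (D.far.getD i1 z3))
    (hfarn : ∃ J' : ℕ, (J' : ℤ) = D.o + 1 + F.u ∧ okBF F.u mu 1 J' (F.cf.v.length + 2) = true ∧
      budF F.u mu 1 F.cf X J' ≤ sel D.farn)
    (hdeep : ∃ J1 J' J'' : ℕ, D.n1 = J1 + 1 + D.o ∧ (J' : ℤ) = J1 + F.u ∧ (J'' : ℤ) = J1 + 1 + F.u ∧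
      okBF F.u mu 0 J' (F.cf.v.length + 2) = true ∧ okBF F.u mu 1 J'' (F.cf.v.length + 2) = true ∧
      budF F.u mu 0 F.cf X J' + budF F.u mu 1 F.cf X J'' ≤ sel D.deep) :
    Bud D F sel (mu + d) t den := by
  have L0 : ∀ (k L b s : ℕ) (B : Finset ℕ), Two k L b s B → L + b + s = 2 * (mu + d) →
      |lD F (mu + d) t den (k + 2) B (k + b)| * (S : ℕ) ≤ (sel D.low : ℝ) := by
    intro k L b s B h hN
    rw [lD_abs]
    have h1 := bud_low hA hden hX hlen okL h hN (Or.inr hLc)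
    exact h1.trans (by exact_mod_cast bL)
  have F2 : ∀ (k L b s : ℕ) (B : Finset ℕ), Two k L b s B → L + b + s = 2 * (mu + d) →
      ∀ (J J' v : ℕ), (J' : ℤ) = J + F.u → okBF F.u mu 1 J' (F.cf.v.length + 2) = true →
      budF F.u mu 1 F.cf X J' ≤ v → b + J ≤ mu + d →
      |xD F (mu + d) t den (k + 2) B (k + b)| * (S : ℕ) ≤ (v : ℝ) := by
    intro k L b s B h hN J J' v e1 e2 e3 e4
    rw [xD_abs]
    have h1 := bud_far2 hA hden hX hlen h hN e1 e2 e4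
    exact h1.trans (by exact_mod_cast e3)
  refine ⟨hA.ht, ht1, L0, fun k L b s B h hN => ?_, fun k L b s B i1 h hN hi hn hJ => ?_,
    fun k L b s B h hN hneg => ?_, fun k L b s B h hN hge => ?_⟩
  · rw [hlows]
    exact L0 k L b s B h hN
  · obtain ⟨J, J', e1, e2, e3, e4⟩ := hfar i1 hn
    exact F2 k L b s B h hN J J' _ e1 e2 e4 (by rw [e3] at hJ; push_cast at hJ; omega)
  · obtain ⟨J', e1, e2, e3⟩ := hfarn
    exact F2 k L b s B h hN (D.o + 1) J' _ (by push_cast; exact e1) e2 e3 (by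
      have := h.hbL
      omega)
  · obtain ⟨J1, J', J'', e1, e2, e3, e4, e5, e6⟩ := hdeep
    have hbL := h.hbL
    have h1 := bud_far1 hA hden hX hlen h hN e2 e4 (by omega)
    have h2 := F2 k L b s B h hN (J1 + 1) J'' _ (by push_cast; exact e3) e5 le_rfl (by omega)
    rw [add_mul, xD_abs]
    have h3 : ((budF F.u mu 0 F.cf X J' : ℕ) : ℝ) + ((budF F.u mu 1 F.cf X J'' : ℕ) : ℝ) ≤
        ((sel D.deep : ℕ) : ℝ) := by exact_mod_cast e6
    push_cast at h1 h2 h3 ⊢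
    linarith

end Pool.NW.RV
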