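import Pool.Agent.Work.MP_46fa68_23.Mo6
import Pool.Agent.Work.MP_46fa68_27.Lists

/-!
# MP_46fa68_co (S4): the runs of the checker for the cross function and the two crude runs (helper67)

`DV`: triple (3.5, 3.5, v), all shapes, `m1 ≥ 23`: points 23, 24, 25, cells `[i/256, (i+1)/256]`, `i < 10`.
`DW`: the same, `m1 = 22`.
`DC`, `DD`: triples (1000, 1000, c), (1000, 1000, d): one cell `[0, 1/26]`.
-/

set_option autoImplicit false

namespace Pool.NW.RV

open Pool.NV Pool.EGL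

/-- a constant, `den = 100` -/
def FK (n : ℤ) : FD := ⟨⟨[], []⟩, 0, [n]⟩

/-- the cross function -/
def FV : FD := ⟨cfV, -1, []⟩

/-- the function `c` -/
def FC : FD := ⟨cfC, 1, [122]⟩

/-- the function `d` -/
def FE : FD := ⟨cfD, 0, []⟩

def DV : Dat where
  a := FK 350
  k := FK 350
  b := FV
  o := 7
  n1 := 14
  J2 := [15, 15, 15, 15, 15, 15, 15, 15, 15, 15, 15, 15, 15, 15]
  bet := [104, 104, 104, 104, 104, 104, 104, 105, 105, 106, 108, 111, 115, 122, 112, 120]
  lows := []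
  low := ⟨0, 0, 2760000000000⟩
  far := [⟨0, 0, 24700000000000⟩, ⟨0, 0, 24700000000000⟩, ⟨0, 0, 24700000000000⟩, ⟨0, 0, 24700000000000⟩, ⟨0, 0, 24700000000000⟩, ⟨0, 0, 24700000000000⟩, ⟨0, 0, 24700000000000⟩, ⟨0, 0, 24700000000000⟩, ⟨0, 0, 24700000000000⟩, ⟨0, 0, 24700000000000⟩, ⟨0, 0, 24700000000000⟩, ⟨0, 0, 24700000000000⟩, ⟨0, 0, 24700000000000⟩, ⟨0, 0, 24700000000000⟩]
  farn := ⟨0, 0, 24700000000000⟩
  deep := ⟨0, 0, 222000000000000⟩
  R := []

def DW : Dat where
  a := FK 350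
  k := FK 350
  b := FV
  o := 7
  n1 := 14
  J2 := [16, 16, 16, 16, 16, 16, 16, 16, 16, 16, 16, 16, 16, 15]
  bet := [104, 104, 104, 104, 104, 104, 105, 105, 105, 106, 108, 110, 114, 123, 115, 119, 119]
  lows := []
  low := ⟨0, 0, 4060000000000⟩
  far := [⟨0, 0, 12600000000000⟩, ⟨0, 0, 12600000000000⟩, ⟨0, 0, 12600000000000⟩, ⟨0, 0, 12600000000000⟩, ⟨0, 0, 12600000000000⟩, ⟨0, 0, 12600000000000⟩, ⟨0, 0, 12600000000000⟩, ⟨0, 0, 12600000000000⟩, ⟨0, 0, 12600000000000⟩, ⟨0, 0, 12600000000000⟩, ⟨0, 0, 12600000000000⟩, ⟨0, 0, 12600000000000⟩, ⟨0, 0, 12600000000000⟩, ⟨0, 0, 30700000000000⟩]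
  farn := ⟨0, 0, 30700000000000⟩
  deep := ⟨0, 0, 253000000000000⟩
  R := []

def DC : Dat where
  a := FK 100000
  k := FK 100000
  b := FC
  o := 4
  n1 := 9
  J2 := [9, 9, 9, 9, 9, 9, 9, 9, 9]
  bet := [105, 105, 105, 105, 105, 105, 106, 109, 114, 103]
  lows := []
  low := ⟨0, 0, 4070000000⟩
  far := [⟨0, 0, 7850000000000⟩, ⟨0, 0, 7850000000000⟩, ⟨0, 0, 7850000000000⟩, ⟨0, 0, 7850000000000⟩, ⟨0, 0, 7850000000000⟩, ⟨0, 0, 7850000000000⟩, ⟨0, 0, 7850000000000⟩, ⟨0, 0, 7850000000000⟩, ⟨0, 0, 7850000000000⟩]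
  farn := ⟨0, 0, 7850000000000⟩
  deep := ⟨0, 0, 37600000000000⟩
  R := []

def DD : Dat where
  a := FK 100000
  k := FK 100000
  b := FE
  o := 4
  n1 := 9
  J2 := [9, 9, 9, 9, 9, 9, 9, 9, 9]
  bet := [105, 105, 105, 105, 105, 105, 106, 109, 114, 103]
  lows := []
  low := ⟨0, 0, 212000000000⟩
  far := [⟨0, 0, 183000000000000⟩, ⟨0, 0, 183000000000000⟩, ⟨0, 0, 183000000000000⟩, ⟨0, 0, 183000000000000⟩, ⟨0, 0, 183000000000000⟩, ⟨0, 0, 183000000000000⟩, ⟨0, 0, 183000000000000⟩, ⟨0, 0, 183000000000000⟩, ⟨0, 0, 183000000000000⟩]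
  farn := ⟨0, 0, 183000000000000⟩
  deep := ⟨0, 0, 765000000000000⟩
  R := []

theorem run_c : chk DC (cell 26 0) = true := by decide +kernel

theorem run_d : chk DD (cell 26 0) = true := by decide +kernel

theorem run_w : chk DW (rat 1 22) = true := by decide +kernel

theorem run_p23 : chk DV (rat 1 23) = true := by decide +kernel

theorem run_p24 : chk DV (rat 1 24) = true := by decide +kernel

theorem run_p25 : chk DV (rat 1 25) = true := by decide +kernel

theorem run_v0 : chk DV (cell 256 0) = true := by decide +kernel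

theorem run_v1 : chk DV (cell 256 1) = true := by decide +kernel

theorem run_v2 : chk DV (cell 256 2) = true := by decide +kernel

theorem run_v3 : chk DV (cell 256 3) = true := by decide +kernel

theorem run_v4 : chk DV (cell 256 4) = true := by decide +kernel

theorem run_v5 : chk DV (cell 256 5) = true := by decide +kernel

theorem run_v6 : chk DV (cell 256 6) = true := by decide +kernel

theorem run_v7 : chk DV (cell 256 7) = true := by decide +kernel

theorem run_v8 : chk DV (cell 256 8) = true := by decide +kernel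

theorem run_v9 : chk DV (cell 256 9) = true := by decide +kernel

theorem run_v : ∀ i, i < 10 → chk DV (cell 256 i) = true := by
  intro i hi
  interval_cases i
  · exact run_v0
  · exact run_v1
  · exact run_v2
  · exact run_v3
  · exact run_v4
  · exact run_v5
  · exact run_v6
  · exact run_v7
  · exact run_v8
  · exact run_v9

end Pool.NW.RV
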