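import Pool.Agent.Work.MP_46fa68_67.BudMk
import Pool.Agent.Work.MP_46fa68_67.RunV

/-!
# MP_46fa68_co (S4): the budgets of the runs (helper67)
-/

set_option autoImplicit false

open Finset

namespace Pool.NW.RV

open Pool.NV Pool.OB Pool.JM Pool.EGL Pool.JM.FR

/-- the ray `[0, 1/mu]` -/
def ray (mu : ℕ) : NI := ⟨0, S / mu + 1⟩

theorem mem_ray {mu t : ℕ} (h0 : 0 < mu) (ht : mu ≤ t) : Mem (1 / (t : ℝ)) (ray mu) := by
  have h1 : (0 : ℝ) < mu := by exact_mod_cast h0
  have h2 : (mu : ℝ) ≤ t := by exact_mod_cast ht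
  have hS := S_posR
  constructor
  · change ((0 : ℕ) : ℝ) ≤ _
    rw [Nat.cast_zero]
    positivity
  · have h3 := div_ceil (a := S) h0
    have h4 : 1 / (t : ℝ) ≤ 1 / mu := one_div_le_one_div_of_le h1 h2
    have h5 : 1 / (t : ℝ) * (S : ℕ) ≤ 1 / mu * (S : ℕ) := mul_le_mul_of_nonneg_right h4 hS.le
    change _ ≤ ((S / mu + 1 : ℕ) : ℝ)
    refine h5.trans ?_
    rw [one_div, inv_mul_le_iff₀ h1, mul_comm]
    exact h3

theorem adm_V {mu : ℕ} (hmu : 17 ≤ mu) (d : ℕ) : Adm FV.u FV.cf mu d (mu + d + 1) where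
  hu := Or.inl rfl
  hμ := hmu
  ht := by unfold FV; push_cast; ring
  hz := fun h => absurd h (by unfold FV; norm_num)

theorem adm_E (d : ℕ) : Adm FE.u FE.cf 26 d (26 + d) where
  hu := Or.inr (Or.inl rfl)
  hμ := by norm_num
  ht := by unfold FE; push_cast; ring
  hz := fun h => absurd h (by unfold FE; norm_num)

theorem adm_C (d : ℕ) : Adm FC.u FC.cf 26 d (26 + d - 1) where
  hu := Or.inr (Or.inr rfl)
  hμ := by norm_num
  ht := by
    show ((26 + d - 1 : ℕ) : ℤ) + 1 = ((26 + d : ℕ) : ℤ)
    omega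
  hz := fun _ => rfl

/-- `v`, `m1 ≥ 23` -/
theorem bud_V (d : ℕ) : Bud DV FV N3.b (23 + d) (23 + d + 1) 100 :=
  bud_mk (X := ray 23) (Lc := 15) (nC := 16) (adm_V (by norm_num) d) (by omega) (by norm_num)
    (mem_ray (by norm_num) (by omega)) (fun h => absurd h (by unfold FV; norm_num))
    (by decide +kernel) (by norm_num) (by decide +kernel) rfl
    (fun i1 hi => ⟨8, 7, by unfold FV; norm_num, by decide +kernel, by
      have h : ∀ i, i < 14 → DV.J2.getD i 0 = 8 + DV.o := by decide +kernel
      exact h i1 hi, by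
      have h : ∀ i, i < 14 → budF FV.u 23 1 FV.cf (ray 23) 7 ≤ N3.b (DV.far.getD i z3) := by
        decide +kernel
      exact h i1 hi⟩)
    ⟨7, by unfold FV DV; norm_num, by decide +kernel, by decide +kernel⟩
    ⟨6, 5, 6, rfl, by unfold FV; norm_num, by unfold FV; norm_num, by decide +kernel, by decide +kernel,
      by decide +kernel⟩

/-- `v`, `m1 = 22` -/
theorem bud_W (d : ℕ) : Bud DW FV N3.b (22 + d) (22 + d + 1) 100 :=
  bud_mk (X := ray 22) (Lc := 14) (nC := 16) (adm_V (by norm_num) d) (by omega) (by norm_num)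
    (mem_ray (by norm_num) (by omega)) (fun h => absurd h (by unfold FV; norm_num))
    (by decide +kernel) (by norm_num) (by decide +kernel) rfl
    (fun i1 hi => by
      rcases Nat.lt_or_ge i1 13 with h13 | h13
      · refine ⟨9, 8, by unfold FV; norm_num, by decide +kernel, ?_, ?_⟩
        · have h : ∀ i, i < 13 → DW.J2.getD i 0 = 9 + DW.o := by decide +kernel
          exact h i1 h13
        · have h : ∀ i, i < 13 → budF FV.u 22 1 FV.cf (ray 22) 8 ≤ N3.b (DW.far.getD i z3) := by
            decide +kernel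
          exact h i1 h13
      · have e : i1 = 13 := by
          have : i1 < 14 := hi
          omega
        subst e
        exact ⟨8, 7, by unfold FV; norm_num, by decide +kernel, by decide +kernel, by decide +kernel⟩)
    ⟨7, by unfold FV DW; norm_num, by decide +kernel, by decide +kernel⟩
    ⟨6, 5, 6, rfl, by unfold FV; norm_num, by unfold FV; norm_num, by decide +kernel, by decide +kernel,
      by decide +kernel⟩

/-- `d`, `m1 ≥ 26` -/
theorem bud_E (d : ℕ) : Bud DD FE N3.b (26 + d) (26 + d) 100 :=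
  bud_mk (X := ray 26) (Lc := 17) (nC := 16) (adm_E d) (by omega) (by norm_num)
    (mem_ray (by norm_num) (by omega)) (fun h => absurd h (by unfold FE; norm_num))
    (by decide +kernel) (by norm_num) (by decide +kernel) rfl
    (fun i1 hi => ⟨5, 5, by unfold FE; norm_num, by decide +kernel, by
      have h : ∀ i, i < 9 → DD.J2.getD i 0 = 5 + DD.o := by decide +kernel
      exact h i1 hi, by
      have h : ∀ i, i < 9 → budF FE.u 26 1 FE.cf (ray 26) 5 ≤ N3.b (DD.far.getD i z3) := by
        decide +kernel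
      exact h i1 hi⟩)
    ⟨5, by unfold FE DD; norm_num, by decide +kernel, by decide +kernel⟩
    ⟨4, 4, 5, rfl, by unfold FE; norm_num, by unfold FE; norm_num, by decide +kernel, by decide +kernel,
      by decide +kernel⟩

/-- `c`, `m1 ≥ 26` -/
theorem bud_C (d : ℕ) : Bud DC FC N3.b (26 + d) (26 + d - 1) 100 :=
  bud_mk (X := ray 26) (Lc := 17) (nC := 16) (adm_C d) (by omega) (by norm_num)
    (mem_ray (by norm_num) (by omega)) (fun _ => by decide)
    (by decide +kernel) (by norm_num) (by decide +kernel) rfl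
    (fun i1 hi => ⟨5, 6, by unfold FC; norm_num, by decide +kernel, by
      have h : ∀ i, i < 9 → DC.J2.getD i 0 = 5 + DC.o := by decide +kernel
      exact h i1 hi, by
      have h : ∀ i, i < 9 → budF FC.u 26 1 FC.cf (ray 26) 6 ≤ N3.b (DC.far.getD i z3) := by
        decide +kernel
      exact h i1 hi⟩)
    ⟨6, by unfold FC DC; norm_num, by decide +kernel, by decide +kernel⟩
    ⟨4, 5, 6, rfl, by unfold FC; norm_num, by unfold FC; norm_num, by decide +kernel, by decide +kernel,
      by decide +kernel⟩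

end Pool.NW.RV
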