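import Pool.Agent.Work.MP_46fa68_18.MoP6
import Pool.Agent.Work.MP_46fa68_67.RunQ
import Pool.Agent.Work.MP_46fa68_67.CrossU

/-!
# MP_46fa68_co (S4): the cross function for all `m1 ≥ 19` (helper67)

`cross_x : 20 ≤ t → CrossU t` (`|v| ≤ 7/2`), `cross_x4 : 19 ≤ t → |v| ≤ 4`.
-/

set_option autoImplicit false

open Finset

namespace Pool.NW.RV

open Pool.NV Pool.OB Pool.JM Pool.EGL Pool.JM.FR

theorem bud_q21 : okBudA Q21 FV N3.b 21 16 (rat 1 21) = true := by decide +kernel

theorem bud_q20 : okBudA Q20 FV N3.b 20 16 (rat 1 20) = true := by decide +kernel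

theorem bud_q19 : okBudA Q19 FV N3.b 19 16 (rat 1 19) = true := by decide +kernel

theorem budQ_const (Q : DatQ) (n : ℤ) (sel : N3 → ℕ) {m den : ℕ} (hm : 1 ≤ m) :
    BudQ Q (FK n) sel m m den where
  bud := bud_const Q.D n sel hm
  f2 := fun k L b s B i2 _ _ _ _ _ => by rw [xD_const, abs_zero, zero_mul]; exact Nat.cast_nonneg _
  dr := fun k L b s B i1 _ _ _ _ _ _ => by
    rw [xD_const, xD_const, abs_zero, add_zero, zero_mul]; exact Nat.cast_nonneg _

/-- one run of the point checker for the cross function -/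
theorem crossQ_of {Q : DatQ} {n : ℤ} (ha : Q.D.a = FK n) (hk : Q.D.k = FK n) (hb : Q.D.b = FV)
    (hn : 0 ≤ n) (hR : Q.D.R = []) {t nC : ℕ} (ht : 1 ≤ t) (hc : chkQ Q (rat 1 t) = true)
    (oB : okBudA Q FV N3.b t nC (rat 1 t) = true) {k L b s : ℕ} {B : Finset ℕ} (h2 : Two k L b s B)
    (hN : L + b + s = 2 * t) :
    |HI (k + 2) t (t + 1) 2 (vC cfV t 100) (tauC cfV t 100) B| * 100 ≤ n := by
  have hx := Cells.mem_pt (show 0 < t by omega)
  have htt : ((t + 1 : ℕ) : ℤ) + FV.u = (t : ℤ) := by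
    unfold FV
    push_cast
    ring
  have Hb := budA_of (den := 100) oB (by norm_num) htt hx
  have Ha : BudQ Q Q.D.a N3.a t t 100 := by rw [ha]; exact budQ_const Q n _ ht
  have Hk : BudQ Q Q.D.k N3.k t t 100 := by rw [hk]; exact budQ_const Q n _ ht
  have hC := chkQ_sound (tb := t + 1) hc (by omega) (show 0 < 100 by norm_num) hx Ha Hk
    (by rw [hb]; exact Hb) h2 hN (fun i1 i2 _ _ => by rw [hR]; rfl)
  rw [ha, hk, hb] at hC
  obtain ⟨h3, -, h5⟩ := hC
  rw [fD_const] at h3 h5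
  have h6 : |fD FV t (t + 1) 100 (k + 2) B| ≤ (n : ℝ) := abs_le_of_sq_le_sq (by nlinarith [h5]) h3
  rw [fD_V, abs_mul, abs_of_pos (show (0 : ℝ) < 100 by norm_num)] at h6
  exact h6

/-- **the cross function, `m1 ≥ 20`** -/
theorem cross_x (t : ℕ) (ht : 20 ≤ t) : CrossU t := by
  rcases Nat.lt_or_ge t 22 with h | h
  · have h3 : t = 20 ∨ t = 21 := by omega
    rcases h3 with rfl | rfl
    · intro k L b s B h2 hN
      have h := crossQ_of (Q := Q20) rfl rfl rfl (by norm_num) rfl (by norm_num) run_q20 bud_q20 h2 hN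
      push_cast at h
      linarith
    · intro k L b s B h2 hN
      have h := crossQ_of (Q := Q21) rfl rfl rfl (by norm_num) rfl (by norm_num) run_q21 bud_q21 h2 hN
      push_cast at h
      linarith
  · exact cross_w t h

/-- **the cross function, `m1 ≥ 19`, constant `4`** -/
theorem cross_x4 (t : ℕ) (ht : 19 ≤ t) {k L b s : ℕ} {B : Finset ℕ} (h2 : Two k L b s B)
    (hN : L + b + s = 2 * t) :
    |HI (k + 2) t (t + 1) 2 (vC cfV t 100) (tauC cfV t 100) B| ≤ 4 := by
  rcases Nat.lt_or_ge t 20 with h | h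
  · have h3 : t = 19 := by omega
    subst h3
    have h := crossQ_of (Q := Q19) rfl rfl rfl (by norm_num) rfl (by norm_num) run_q19 bud_q19 h2 hN
    push_cast at h
    linarith
  · exact (cross_x t h k L b s B h2 hN).trans (by norm_num)

end Pool.NW.RV
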