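import Pool.Agent.Work.MP_46fa68_67.CrudeW
import Pool.Agent.Work.MP_46fa68_36.LargeW

/-!
# MP_46fa68_co (S4): `CrudeW` of the range (P') (helper67)
-/

set_option autoImplicit false

open Finset

namespace Pool.NW.RV

open Pool.NV Pool.OB Pool.JM Pool.EGL Pool.JM.FR

/-- **crude bounds of (P')** -/
theorem crudeW (t : ℕ) (ht : 22 ≤ t) : Pool.EGW.CrudeW t := by
  intro k L b s B h2 hN _
  obtain ⟨h, h'⟩ := crude_ten t ht (W := 63 / 50) (by norm_num) (by norm_num) h2 hN
  exact ⟨h.trans (by norm_num), h'.trans (by norm_num)⟩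

end Pool.NW.RV
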