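import Pool.Agent.Work.MP_46fa68_67.RunV

/-!
# MP_46fa68_co (S4): crude bounds of the functions `c`, `d` for all walls `m1 ≥ 22` (helper67)

`DG`: triple (4, 4, c - const), `DH`: triple (9, 9, d): points 22, 23, 24, 25, cells `[i/256, (i+1)/256]`, `i < 10`.
-/

set_option autoImplicit false

namespace Pool.NW.RV

open Pool.NV Pool.EGL

/-- the function `c` without constant -/
def FG : FD := ⟨cfC, 1, []⟩

def DG : Dat where
  a := FK 400
  k := FK 400
  b := FG
  o := 4
  n1 := 10
  J2 := [11, 11, 11, 11, 11, 11, 11, 11, 11, 11]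
  bet := [104, 104, 104, 105, 105, 105, 106, 109, 112, 118, 107, 111]
  lows := []
  low := ⟨0, 0, 39800000000⟩
  far := [⟨0, 0, 1170000000000⟩, ⟨0, 0, 1170000000000⟩, ⟨0, 0, 1170000000000⟩, ⟨0, 0, 1170000000000⟩, ⟨0, 0, 1170000000000⟩, ⟨0, 0, 1170000000000⟩, ⟨0, 0, 1170000000000⟩, ⟨0, 0, 1170000000000⟩, ⟨0, 0, 1170000000000⟩, ⟨0, 0, 1170000000000⟩]
  farn := ⟨0, 0, 11000000000000⟩
  deep := ⟨0, 0, 15000000000000⟩
  R := []

def DH : Dat where
  a := FK 900
  k := FK 900
  b := FE
  o := 4
  n1 := 10
  J2 := [11, 11, 11, 11, 11, 11, 11, 11, 11, 11]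
  bet := [104, 104, 104, 105, 105, 105, 106, 109, 112, 118, 107, 111]
  lows := []
  low := ⟨0, 0, 1860000000000⟩
  far := [⟨0, 0, 40800000000000⟩, ⟨0, 0, 40800000000000⟩, ⟨0, 0, 40800000000000⟩, ⟨0, 0, 40800000000000⟩, ⟨0, 0, 40800000000000⟩, ⟨0, 0, 40800000000000⟩, ⟨0, 0, 40800000000000⟩, ⟨0, 0, 40800000000000⟩, ⟨0, 0, 40800000000000⟩, ⟨0, 0, 40800000000000⟩]
  farn := ⟨0, 0, 263000000000000⟩
  deep := ⟨0, 0, 382000000000000⟩
  R := []

theorem run_g22 : chk DG (rat 1 22) = true := by decide +kernel

theorem run_g23 : chk DG (rat 1 23) = true := by decide +kernel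

theorem run_g24 : chk DG (rat 1 24) = true := by decide +kernel

theorem run_g25 : chk DG (rat 1 25) = true := by decide +kernel

theorem run_g_0 : chk DG (cell 256 0) = true := by decide +kernel

theorem run_g_1 : chk DG (cell 256 1) = true := by decide +kernel

theorem run_g_2 : chk DG (cell 256 2) = true := by decide +kernel

theorem run_g_3 : chk DG (cell 256 3) = true := by decide +kernel

theorem run_g_4 : chk DG (cell 256 4) = true := by decide +kernel

theorem run_g_5 : chk DG (cell 256 5) = true := by decide +kernel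

theorem run_g_6 : chk DG (cell 256 6) = true := by decide +kernel

theorem run_g_7 : chk DG (cell 256 7) = true := by decide +kernel

theorem run_g_8 : chk DG (cell 256 8) = true := by decide +kernel

theorem run_g_9 : chk DG (cell 256 9) = true := by decide +kernel

theorem run_g : ∀ i, i < 10 → chk DG (cell 256 i) = true := by
  intro i hi
  interval_cases i
  · exact run_g_0
  · exact run_g_1
  · exact run_g_2
  · exact run_g_3
  · exact run_g_4
  · exact run_g_5
  · exact run_g_6
  · exact run_g_7
  · exact run_g_8
  · exact run_g_9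

theorem run_h22 : chk DH (rat 1 22) = true := by decide +kernel

theorem run_h23 : chk DH (rat 1 23) = true := by decide +kernel

theorem run_h24 : chk DH (rat 1 24) = true := by decide +kernel

theorem run_h25 : chk DH (rat 1 25) = true := by decide +kernel

theorem run_h_0 : chk DH (cell 256 0) = true := by decide +kernel

theorem run_h_1 : chk DH (cell 256 1) = true := by decide +kernel

theorem run_h_2 : chk DH (cell 256 2) = true := by decide +kernel

theorem run_h_3 : chk DH (cell 256 3) = true := by decide +kernel

theorem run_h_4 : chk DH (cell 256 4) = true := by decide +kernel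

theorem run_h_5 : chk DH (cell 256 5) = true := by decide +kernel

theorem run_h_6 : chk DH (cell 256 6) = true := by decide +kernel

theorem run_h_7 : chk DH (cell 256 7) = true := by decide +kernel

theorem run_h_8 : chk DH (cell 256 8) = true := by decide +kernel

theorem run_h_9 : chk DH (cell 256 9) = true := by decide +kernel

theorem run_h : ∀ i, i < 10 → chk DH (cell 256 i) = true := by
  intro i hi
  interval_cases i
  · exact run_h_0
  · exact run_h_1
  · exact run_h_2
  · exact run_h_3
  · exact run_h_4
  · exact run_h_5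
  · exact run_h_6
  · exact run_h_7
  · exact run_h_8
  · exact run_h_9

end Pool.NW.RV
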