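import Pool.Agent.Work.MP_46fa68_67.CrossU
import Pool.Agent.Work.MP_46fa68_67.RunC

/-!
# MP_46fa68_co (S4): `|HI c| ≤ 4`, `|HI d| ≤ 9` on all shapes for all walls `m1 ≥ 22` (helper67)
-/

set_option autoImplicit false

open Finset

namespace Pool.NW.RV

open Pool.NV Pool.OB Pool.JM Pool.EGL Pool.JM.FR

theorem adm_G (d : ℕ) : Adm FG.u FG.cf 22 d (22 + d - 1) where
  hu := Or.inr (Or.inr rfl)
  hμ := by norm_num
  ht := by
    show ((22 + d - 1 : ℕ) : ℤ) + 1 = ((22 + d : ℕ) : ℤ)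
    omega
  hz := fun _ => rfl

theorem adm_H (d : ℕ) : Adm FE.u FE.cf 22 d (22 + d) where
  hu := Or.inr (Or.inl rfl)
  hμ := by norm_num
  ht := by unfold FE; push_cast; ring
  hz := fun h => absurd h (by unfold FE; norm_num)

/-- `d`, `m1 ≥ 22` -/
theorem bud_H (d : ℕ) : Bud DH FE N3.b (22 + d) (22 + d) 100 :=
  bud_mk (X := ray 22) (Lc := 14) (nC := 16) (adm_H d) (by omega) (by norm_num)
    (mem_ray (by norm_num) (by omega)) (fun h => absurd h (by unfold FE; norm_num))
    (by decide +kernel) (by norm_num) (by decide +kernel) rfl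
    (fun i1 hi => ⟨7, 7, by unfold FE; norm_num, by decide +kernel, by
      have h : ∀ i, i < 10 → DH.J2.getD i 0 = 7 + DH.o := by decide +kernel
      exact h i1 hi, by
      have h : ∀ i, i < 10 → budF FE.u 22 1 FE.cf (ray 22) 7 ≤ N3.b (DH.far.getD i z3) := by
        decide +kernel
      exact h i1 hi⟩)
    ⟨5, by unfold FE DH; norm_num, by decide +kernel, by decide +kernel⟩
    ⟨5, 5, 6, rfl, by unfold FE; norm_num, by unfold FE; norm_num, by decide +kernel, by decide +kernel,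
      by decide +kernel⟩

/-- `c`, `m1 ≥ 22` -/
theorem bud_G (d : ℕ) : Bud DG FG N3.b (22 + d) (22 + d - 1) 100 :=
  bud_mk (X := ray 22) (Lc := 14) (nC := 16) (adm_G d) (by omega) (by norm_num)
    (mem_ray (by norm_num) (by omega)) (fun _ => by decide)
    (by decide +kernel) (by norm_num) (by decide +kernel) rfl
    (fun i1 hi => ⟨7, 8, by unfold FG; norm_num, by decide +kernel, by
      have h : ∀ i, i < 10 → DG.J2.getD i 0 = 7 + DG.o := by decide +kernel
      exact h i1 hi, by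
      have h : ∀ i, i < 10 → budF FG.u 22 1 FG.cf (ray 22) 8 ≤ N3.b (DG.far.getD i z3) := by
        decide +kernel
      exact h i1 hi⟩)
    ⟨6, by unfold FG DG; norm_num, by decide +kernel, by decide +kernel⟩
    ⟨5, 6, 7, rfl, by unfold FG; norm_num, by unfold FG; norm_num, by decide +kernel, by decide +kernel,
      by decide +kernel⟩

theorem fD_G (m t K : ℕ) (B : Finset ℕ) :
    fD FG m t 100 K B = HI K m t 4 (vC cfC m 100) (tauC cfC m 100) B * 100 := by
  unfold fD FG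
  change pev [] _ + HI K m t 4 (vC cfC m 100) (tauC cfC m 100) B * ((100 : ℕ) : ℝ) = _
  simp [pev]

theorem crude_of {X : NI} (hc : chk DG X = true) (hd : chk DH X = true) {t : ℕ} (ht : 22 ≤ t)
    (hx : Mem (1 / (t : ℝ)) X) {k L b s : ℕ} {B : Finset ℕ} (h2 : Two k L b s B)
    (hN : L + b + s = 2 * t) :
    |HI (k + 2) t (t - 1) 4 (vC cfC t 100) (tauC cfC t 100) B| ≤ 4 ∧
      |HI (k + 2) t t 3 (vC cfD t 100) (tauC cfD t 100) B| ≤ 9 := by
  obtain ⟨d, e⟩ : ∃ d, t = 22 + d := ⟨t - 22, by omega⟩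
  have HC := bud_G d
  have HE := bud_H d
  rw [← e] at HC HE
  have e100 : |((100 : ℝ))| = 100 := abs_of_pos (by norm_num)
  constructor
  · have h := run_abs (D := DG) (n := 400) rfl rfl (by norm_num) rfl hc (by omega) (den := 100)
      (tb := t - 1) (by norm_num) hx HC h2 hN
    have h' : |fD FG t (t - 1) 100 (k + 2) B| ≤ ((400 : ℤ) : ℝ) := h
    rw [fD_G, abs_mul, e100] at h'
    push_cast at h'
    linarith
  · have h := run_abs (D := DH) (n := 900) rfl rfl (by norm_num) rfl hd (by omega) (den := 100)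
      (tb := t) (by norm_num) hx HE h2 hN
    have h' : |fD FE t t 100 (k + 2) B| ≤ ((900 : ℤ) : ℝ) := h
    rw [fD_E, abs_mul, e100] at h'
    push_cast at h'
    linarith

/-- **crude bounds, all walls `m1 ≥ 22`, all shapes** -/
theorem crude_w (t : ℕ) (ht : 22 ≤ t) {k L b s : ℕ} {B : Finset ℕ} (h2 : Two k L b s B)
    (hN : L + b + s = 2 * t) :
    |HI (k + 2) t (t - 1) 4 (vC cfC t 100) (tauC cfC t 100) B| ≤ 4 ∧
      |HI (k + 2) t t 3 (vC cfD t 100) (tauC cfD t 100) B| ≤ 9 := by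
  rcases Nat.lt_or_ge t 26 with h | h
  · have h3 : t = 22 ∨ t = 23 ∨ t = 24 ∨ t = 25 := by omega
    rcases h3 with rfl | rfl | rfl | rfl
    · exact crude_of run_g22 run_h22 ht (Cells.mem_pt (by norm_num)) h2 hN
    · exact crude_of run_g23 run_h23 ht (Cells.mem_pt (by norm_num)) h2 hN
    · exact crude_of run_g24 run_h24 ht (Cells.mem_pt (by norm_num)) h2 hN
    · exact crude_of run_g25 run_h25 ht (Cells.mem_pt (by norm_num)) h2 hN
  · obtain ⟨i, hi, hx⟩ := Cells.exists_cell_inv (k := 256) (n := 10) (m := t) (by norm_num) (by norm_num)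
      (by omega) (by omega)
    exact crude_of (run_g i hi) (run_h i hi) ht hx h2 hN

/-- with a constant `W ≤ 6` -/
theorem crude_ten (t : ℕ) (ht : 22 ≤ t) {W : ℝ} (h0 : 0 ≤ W) (hW : W ≤ 6) {k L b s : ℕ} {B : Finset ℕ}
    (h2 : Two k L b s B) (hN : L + b + s = 2 * t) :
    |W + HI (k + 2) t (t - 1) 4 (vC cfC t 100) (tauC cfC t 100) B| ≤ 10 ∧
      |HI (k + 2) t t 3 (vC cfD t 100) (tauC cfD t 100) B| ≤ 10 := by
  obtain ⟨h, h'⟩ := crude_w t ht h2 hN
  refine ⟨?_, h'.trans (by norm_num)⟩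
  have e := abs_add_le W (HI (k + 2) t (t - 1) 4 (vC cfC t 100) (tauC cfC t 100) B)
  rw [abs_of_nonneg h0] at e
  linarith

end Pool.NW.RV
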