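import Pool.Agent.Work.MP_46fa68_56.RDefs

/-!
# MP_46fa68_co: block NF1 (rows `≥ 3`, all shapes)

The quantity decreases in `m` (factor `4 m / (m+1)^2 * exp 1`), so it is enough to look at the least `m`
with `3 y + 3 ≤ 2 m`; there `y = 2 k` or `y = 2 k + 1`, and the quantity decreases in `k`.
-/

set_option autoImplicit false

open Finset

namespace Pool.JM.LR

/-- the quantity of `NF1` -/
noncomputable def FF (m y : ℕ) : ℝ :=
  51 / 25 * 2 ^ (2 * m - 3 - y) *
    (if y = 0 then 1 else (((y : ℝ) + 1) / 2 + (2 * (m : ℝ) - 3 - 3 * y) / y) ^ y) /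
    (m * (m.factorial : ℝ))

theorem exp_one_lt : Real.exp 1 < 272 / 100 := by
  have := Real.exp_one_lt_d9
  linarith

theorem exp_two_lt : Real.exp 2 < 74 / 10 := by
  have h1 : Real.exp 2 = Real.exp 1 ^ 2 := by
    rw [← Real.exp_nat_mul]
    norm_num
  rw [h1]
  nlinarith [exp_one_lt, Real.exp_pos 1]

/-- `(b + s)^y ≤ b^y exp (s y / b)` -/
theorem pow_add_le (b s : ℝ) (hb : 0 < b) (hs : 0 ≤ s) (y : ℕ) :
    (b + s) ^ y ≤ b ^ y * Real.exp (y * (s / b)) := by
  have h1 : b + s = b * (1 + s / b) := by field_simp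
  have h2 : 1 + s / b ≤ Real.exp (s / b) := by
    have := Real.add_one_le_exp (s / b)
    linarith
  have h3 : 0 ≤ s / b := by positivity
  rw [h1, mul_pow, Real.exp_nat_mul]
  exact mul_le_mul_of_nonneg_left (pow_le_pow_left₀ (by linarith) h2 y) (by positivity)

theorem FF_step (m y : ℕ) (hm : 16 ≤ m) (hy : 3 * y + 3 ≤ 2 * m) : FF (m + 1) y ≤ FF m y := by
  have hmR : (16 : ℝ) ≤ m := by exact_mod_cast hm
  have hexp : 2 * (m + 1) - 3 - y = (2 * m - 3 - y) + 2 := by omega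
  -- the bracket
  have hbr : (if y = 0 then (1 : ℝ) else (((y : ℝ) + 1) / 2 +
      (2 * ((m + 1 : ℕ) : ℝ) - 3 - 3 * y) / y) ^ y) ≤
      (if y = 0 then (1 : ℝ) else (((y : ℝ) + 1) / 2 + (2 * (m : ℝ) - 3 - 3 * y) / y) ^ y) *
      (272 / 100) := by
    by_cases h0 : y = 0
    · simp only [h0, if_true]
      norm_num
    · simp only [h0, if_false]
      have hy1 : (1 : ℝ) ≤ y := by exact_mod_cast Nat.one_le_iff_ne_zero.mpr h0
      have hb2 : (2 : ℝ) ≤ ((y : ℝ) + 1) / 2 + (2 * (m : ℝ) - 3 - 3 * y) / y := by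
        rw [← sub_nonneg]
        have : ((y : ℝ) + 1) / 2 + (2 * (m : ℝ) - 3 - 3 * y) / y - 2 =
            ((y : ℝ) ^ 2 - 9 * y + 2 * (2 * m - 3)) / (2 * y) := by
          field_simp
          ring
        rw [this]
        apply div_nonneg _ (by positivity)
        nlinarith [sq_nonneg ((y : ℝ) - 9 / 2)]
      have heq : ((y : ℝ) + 1) / 2 + (2 * ((m + 1 : ℕ) : ℝ) - 3 - 3 * y) / y =
          (((y : ℝ) + 1) / 2 + (2 * (m : ℝ) - 3 - 3 * y) / y) + 2 / y := by
        push_cast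
        field_simp
        ring
      rw [heq]
      refine (pow_add_le _ (2 / y) (by linarith) (by positivity) y).trans ?_
      apply mul_le_mul_of_nonneg_left _ (by positivity)
      refine le_trans (Real.exp_le_exp.mpr ?_) exp_one_lt.le
      set b := ((y : ℝ) + 1) / 2 + (2 * (m : ℝ) - 3 - 3 * y) / y with hb
      have : (y : ℝ) * (2 / y / b) = 2 / b := by
        field_simp
      rw [this, div_le_one (by linarith)]
      exact hb2
  have hbr0 : 0 ≤ (if y = 0 then (1 : ℝ) else (((y : ℝ) + 1) / 2 +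
      (2 * (m : ℝ) - 3 - 3 * y) / y) ^ y) := by
    by_cases h0 : y = 0
    · simp only [h0, if_true]
      norm_num
    · simp only [h0, if_false]
      apply pow_nonneg
      have h3 : (0 : ℝ) ≤ 2 * (m : ℝ) - 3 - 3 * y := by
        have : (3 * (y : ℝ) + 3) ≤ 2 * m := by exact_mod_cast hy
        linarith
      positivity
  unfold FF
  rw [hexp, pow_add]
  set P := (if y = 0 then (1 : ℝ) else (((y : ℝ) + 1) / 2 +
      (2 * ((m + 1 : ℕ) : ℝ) - 3 - 3 * y) / y) ^ y) with hP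
  set Q := (if y = 0 then (1 : ℝ) else (((y : ℝ) + 1) / 2 +
      (2 * (m : ℝ) - 3 - 3 * y) / y) ^ y) with hQ
  have hfac : (0 : ℝ) < (m.factorial : ℝ) := by exact_mod_cast m.factorial_pos
  rw [div_le_div_iff₀ (by positivity) (by positivity)]
  rw [Nat.factorial_succ]
  push_cast
  set T := (2 : ℝ) ^ (2 * m - 3 - y) with hT
  have hTp : 0 < T := by positivity
  have h1 : 51 / 25 * (T * 2 ^ 2) * P * (m * (m.factorial : ℝ)) ≤
      51 / 25 * (T * 2 ^ 2) * (Q * (272 / 100)) * (m * (m.factorial : ℝ)) := by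
    apply mul_le_mul_of_nonneg_right _ (by positivity)
    exact mul_le_mul_of_nonneg_left hbr (by positivity)
  refine h1.trans ?_
  have h2 : 51 / 25 * T * Q * ((m + 1) * ((m + 1) * (m.factorial : ℝ))) -
      51 / 25 * (T * 2 ^ 2) * (Q * (272 / 100)) * (m * (m.factorial : ℝ)) =
      51 / 25 * T * Q * (m.factorial : ℝ) * ((m + 1) * (m + 1) - 4 * (272 / 100) * m) := by
    ring
  have h3 : 0 ≤ ((m : ℝ) + 1) * (m + 1) - 4 * (272 / 100) * m := by nlinarith
  have h4 : 0 ≤ 51 / 25 * T * Q * (m.factorial : ℝ) * ((m + 1) * (m + 1) - 4 * (272 / 100) * m) := by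
    positivity
  linarith

theorem FF_mono (m0 m y : ℕ) (hm0 : 16 ≤ m0) (hy : 3 * y + 3 ≤ 2 * m0) (h : m0 ≤ m) :
    FF m y ≤ FF m0 y := by
  induction m, h using Nat.le_induction with
  | base => exact le_rfl
  | succ n hn ih => exact (FF_step n y (by omega) (by omega)).trans ih

/-- `y = 2 k + 1`, `m = 3 k + 3` -/
theorem FF_odd (k : ℕ) (hk : 5 ≤ k) : FF (3 * k + 3) (2 * k + 1) ≤ 27 / 1000 := by
  induction k, hk using Nat.le_induction with
  | base =>
    unfold FF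
    norm_num [Nat.factorial]
  | succ k hk ih =>
    refine le_trans ?_ ih
    have hkR : (5 : ℝ) ≤ k := by exact_mod_cast hk
    have e1 : 2 * (3 * (k + 1) + 3) - 3 - (2 * (k + 1) + 1) = (2 * (3 * k + 3) - 3 - (2 * k + 1)) + 4 := by
      omega
    unfold FF
    rw [e1, if_neg (by omega), if_neg (by omega)]
    have b1 : (((2 * (k + 1) + 1 : ℕ) : ℝ) + 1) / 2 +
        (2 * ((3 * (k + 1) + 3 : ℕ) : ℝ) - 3 - 3 * ((2 * (k + 1) + 1 : ℕ) : ℝ)) /
        ((2 * (k + 1) + 1 : ℕ) : ℝ) = ((k : ℝ) + 1) + 1 := by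
      push_cast
      have : (2 * (3 * ((k : ℝ) + 1) + 3) - 3 - 3 * (2 * ((k : ℝ) + 1) + 1)) = 0 := by ring
      rw [this]
      ring
    have b0 : (((2 * k + 1 : ℕ) : ℝ) + 1) / 2 +
        (2 * ((3 * k + 3 : ℕ) : ℝ) - 3 - 3 * ((2 * k + 1 : ℕ) : ℝ)) /
        ((2 * k + 1 : ℕ) : ℝ) = (k : ℝ) + 1 := by
      push_cast
      have : (2 * (3 * (k : ℝ) + 3) - 3 - 3 * (2 * (k : ℝ) + 1)) = 0 := by ring
      rw [this]
      ring
    rw [b1, b0]
    set T := (2 : ℝ) ^ (2 * (3 * k + 3) - 3 - (2 * k + 1)) with hT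
    have hTp : 0 < T := by positivity
    have hp : ((k : ℝ) + 1 + 1) ^ (2 * (k + 1) + 1) ≤
        ((k : ℝ) + 1) ^ (2 * k + 1) * (74 / 10) * ((k : ℝ) + 2) ^ 3 / ((k : ℝ) + 1) := by
      have e3 : ((k : ℝ) + 1 + 1) ^ (2 * (k + 1) + 1) = ((k : ℝ) + 1 + 1) ^ (2 * k) * ((k : ℝ) + 2) ^ 3 := by
        ring
      rw [e3]
      have e4 : ((k : ℝ) + 1) ^ (2 * k + 1) * (74 / 10) * ((k : ℝ) + 2) ^ 3 / ((k : ℝ) + 1) =
          (((k : ℝ) + 1) ^ (2 * k) * (74 / 10)) * ((k : ℝ) + 2) ^ 3 := by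
        field_simp
        ring
      rw [e4]
      apply mul_le_mul_of_nonneg_right _ (by positivity)
      refine (pow_add_le ((k : ℝ) + 1) 1 (by linarith) (by norm_num) (2 * k)).trans ?_
      apply mul_le_mul_of_nonneg_left _ (by positivity)
      refine le_trans (Real.exp_le_exp.mpr ?_) exp_two_lt.le
      push_cast
      rw [← mul_div_assoc, div_le_iff₀ (by linarith)]
      linarith
    set A := ((k : ℝ) + 1) ^ (2 * k + 1) with hA
    have hAp : 0 < A := by positivity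
    have e5 : (3 * (k + 1) + 3).factorial =
        (3 * k + 6) * ((3 * k + 5) * ((3 * k + 4) * (3 * k + 3).factorial)) := by
      have : 3 * (k + 1) + 3 = 3 * k + 3 + 1 + 1 + 1 := by ring
      rw [this, Nat.factorial_succ, Nat.factorial_succ, Nat.factorial_succ]
    have hfac : (0 : ℝ) < ((3 * k + 3).factorial : ℝ) := by exact_mod_cast Nat.factorial_pos _
    rw [e5, pow_add]
    push_cast
    rw [div_le_div_iff₀ (by positivity) (by positivity)]
    set Φ := ((3 * k + 3).factorial : ℝ) with hΦ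
    have h1 : 51 / 25 * (T * 2 ^ 4) * ((k : ℝ) + 1 + 1) ^ (2 * (k + 1) + 1) * ((3 * k + 3) * Φ) ≤
        51 / 25 * (T * 2 ^ 4) * (A * (74 / 10) * ((k : ℝ) + 2) ^ 3 / ((k : ℝ) + 1)) *
        ((3 * k + 3) * Φ) := by
      apply mul_le_mul_of_nonneg_right _ (by positivity)
      exact mul_le_mul_of_nonneg_left hp (by positivity)
    refine h1.trans ?_
    have h2 : 51 / 25 * (T * 2 ^ 4) * (A * (74 / 10) * ((k : ℝ) + 2) ^ 3 / ((k : ℝ) + 1)) *
        ((3 * k + 3) * Φ) = 51 / 25 * T * A * Φ * (16 * (74 / 10) * 3 * ((k : ℝ) + 2) ^ 3) := by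
      field_simp
      ring
    rw [h2]
    have h3 : 51 / 25 * T * A * ((3 * ((k : ℝ) + 1) + 3) * ((3 * k + 6) * ((3 * k + 5) *
        ((3 * k + 4) * Φ)))) =
        51 / 25 * T * A * Φ * (9 * ((k : ℝ) + 2) ^ 2 * ((3 * k + 5) * (3 * k + 4))) := by
      ring
    rw [h3]
    apply mul_le_mul_of_nonneg_left _ (by positivity)
    have h4 : 16 * (74 / 10) * 3 * ((k : ℝ) + 2) ≤ 9 * ((3 * k + 5) * (3 * k + 4)) := by nlinarith
    have h5 : 0 ≤ ((k : ℝ) + 2) ^ 2 := by positivity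
    nlinarith [mul_le_mul_of_nonneg_left h4 h5]

/-- the bound for `y = 2 k`, `m = 3 k + 2` -/
noncomputable def HH (k : ℕ) : ℝ :=
  51 / 25 * 2 ^ (4 * k + 1) * ((k : ℝ) + 3 / 5) ^ (2 * k) /
    ((3 * k + 2) * ((3 * k + 2).factorial : ℝ))

theorem HH_le (k : ℕ) (hk : 5 ≤ k) : HH k ≤ 27 / 1000 := by
  induction k, hk using Nat.le_induction with
  | base =>
    unfold HH
    norm_num [Nat.factorial]
  | succ k hk ih =>
    refine le_trans ?_ ih
    have hkR : (5 : ℝ) ≤ k := by exact_mod_cast hk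
    unfold HH
    have e1 : 4 * (k + 1) + 1 = (4 * k + 1) + 4 := by ring
    rw [e1, pow_add _ (4 * k + 1) 4]
    set T := (2 : ℝ) ^ (4 * k + 1) with hT
    have hTp : 0 < T := by positivity
    have hp : (((k + 1 : ℕ) : ℝ) + 3 / 5) ^ (2 * (k + 1)) ≤
        ((k : ℝ) + 3 / 5) ^ (2 * k) * (74 / 10) * ((k : ℝ) + 8 / 5) ^ 2 := by
      have e3 : (((k + 1 : ℕ) : ℝ) + 3 / 5) ^ (2 * (k + 1)) =
          (((k : ℝ) + 3 / 5) + 1) ^ (2 * k) * ((k : ℝ) + 8 / 5) ^ 2 := by
        push_cast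
        have : (k : ℝ) + 1 + 3 / 5 = (k : ℝ) + 8 / 5 := by ring
        rw [this]
        have : (k : ℝ) + 3 / 5 + 1 = (k : ℝ) + 8 / 5 := by ring
        rw [this]
        ring
      rw [e3]
      apply mul_le_mul_of_nonneg_right _ (by positivity)
      refine (pow_add_le ((k : ℝ) + 3 / 5) 1 (by linarith) (by norm_num) (2 * k)).trans ?_
      apply mul_le_mul_of_nonneg_left _ (by positivity)
      refine le_trans (Real.exp_le_exp.mpr ?_) exp_two_lt.le
      push_cast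
      rw [← mul_div_assoc, div_le_iff₀ (by linarith)]
      linarith
    set A := ((k : ℝ) + 3 / 5) ^ (2 * k) with hA
    have hAp : 0 < A := by positivity
    have e5 : (3 * (k + 1) + 2).factorial =
        (3 * k + 5) * ((3 * k + 4) * ((3 * k + 3) * (3 * k + 2).factorial)) := by
      have : 3 * (k + 1) + 2 = 3 * k + 2 + 1 + 1 + 1 := by ring
      rw [this, Nat.factorial_succ, Nat.factorial_succ, Nat.factorial_succ]
    have hfac : (0 : ℝ) < ((3 * k + 2).factorial : ℝ) := by exact_mod_cast Nat.factorial_pos _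
    rw [e5]
    push_cast at hp ⊢
    rw [div_le_div_iff₀ (by positivity) (by positivity)]
    set Φ := ((3 * k + 2).factorial : ℝ) with hΦ
    have h1 : 51 / 25 * (T * 2 ^ 4) * ((k : ℝ) + 1 + 3 / 5) ^ (2 * (k + 1)) * ((3 * k + 2) * Φ) ≤
        51 / 25 * (T * 2 ^ 4) * (A * (74 / 10) * ((k : ℝ) + 8 / 5) ^ 2) * ((3 * k + 2) * Φ) := by
      apply mul_le_mul_of_nonneg_right _ (by positivity)
      exact mul_le_mul_of_nonneg_left hp (by positivity)
    refine h1.trans ?_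
    have h2 : 51 / 25 * (T * 2 ^ 4) * (A * (74 / 10) * ((k : ℝ) + 8 / 5) ^ 2) * ((3 * k + 2) * Φ) =
        51 / 25 * T * A * Φ * (16 * (74 / 10) * ((k : ℝ) + 8 / 5) ^ 2 * (3 * k + 2)) := by
      ring
    rw [h2]
    have h3 : 51 / 25 * T * A * ((3 * ((k : ℝ) + 1) + 2) * ((3 * k + 5) * ((3 * k + 4) *
        ((3 * k + 3) * Φ)))) =
        51 / 25 * T * A * Φ * ((3 * (k : ℝ) + 5) ^ 2 * ((3 * k + 4) * (3 * k + 3))) := by
      ring
    rw [h3]
    apply mul_le_mul_of_nonneg_left _ (by positivity)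
    -- `(k + 8/5)^2 ≤ ((3k+5)/3)^2`, `3 k + 2 ≤ 3 k + 3`
    have h4 : 16 * (74 / 10) * (3 * (k : ℝ) + 2) ≤ 9 * ((3 * k + 4) * (3 * k + 3)) := by nlinarith
    have h5 : 9 * ((k : ℝ) + 8 / 5) ^ 2 ≤ (3 * (k : ℝ) + 5) ^ 2 := by nlinarith
    have h6 : 0 ≤ ((k : ℝ) + 8 / 5) ^ 2 := by positivity
    have h7 : 0 ≤ (3 * (k : ℝ) + 4) * (3 * k + 3) := by positivity
    nlinarith [mul_le_mul_of_nonneg_left h4 h6, mul_le_mul_of_nonneg_right h5 h7]

theorem FF_even (k : ℕ) (hk : 5 ≤ k) : FF (3 * k + 2) (2 * k) ≤ 27 / 1000 := by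
  refine le_trans ?_ (HH_le k hk)
  have hkR : (5 : ℝ) ≤ k := by exact_mod_cast hk
  unfold FF HH
  have e1 : 2 * (3 * k + 2) - 3 - 2 * k = 4 * k + 1 := by omega
  rw [e1, if_neg (by omega)]
  have hfac : (0 : ℝ) < ((3 * k + 2).factorial : ℝ) := by exact_mod_cast Nat.factorial_pos _
  push_cast
  apply div_le_div_of_nonneg_right _ (by positivity)
  apply mul_le_mul_of_nonneg_left _ (by positivity)
  have b0 : (2 * (k : ℝ) + 1) / 2 + (2 * (3 * (k : ℝ) + 2) - 3 - 3 * (2 * (k : ℝ))) / (2 * k) =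
      (k : ℝ) + 1 / 2 + 1 / (2 * k) := by
    have : (2 * (3 * (k : ℝ) + 2) - 3 - 3 * (2 * (k : ℝ))) = 1 := by ring
    rw [this]
    ring
  rw [b0]
  apply pow_le_pow_left₀ (by positivity)
  have : 1 / (2 * (k : ℝ)) ≤ 1 / 10 := by
    apply one_div_le_one_div_of_le (by norm_num)
    linarith
  linarith

theorem blk_NF1 : Stmt_NF1 := by
  intro m y hm hy
  change FF m y ≤ 27 / 1000
  by_cases h : y ≤ 9
  · refine (FF_mono 16 m y le_rfl (by omega) hm).trans ?_
    interval_cases y <;> (unfold FF; norm_num [Nat.factorial])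
  · rcases Nat.even_or_odd' y with ⟨k, rfl | rfl⟩
    · exact (FF_mono (3 * k + 2) m (2 * k) (by omega) (by omega) (by omega)).trans
        (FF_even k (by omega))
    · exact (FF_mono (3 * k + 3) m (2 * k + 1) (by omega) (by omega) (by omega)).trans
        (FF_odd k (by omega))

end Pool.JM.LR
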