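import Pool.Agent.Work.MP_46fa68_23.Mo8c
import Pool.Agent.Work.MP_46fa68_27.Lists
import Pool.Agent.Work.MP_46fa68_67.BudV

/-!
# MP_46fa68_co (S4): the cross function and the crude bounds of the uniform range (helper67)
-/

set_option autoImplicit false

open Finset

namespace Pool.NW.RV

open Pool.NV Pool.OB Pool.JM Pool.EGL Pool.JM.FR

/-! ### constants -/

theorem HIx_nil (K m t : ℕ) (v : ℕ → ℕ → ℝ) (B : Finset ℕ) (x : ℕ) : HIx K m t 0 v 0 B x = 0 := by
  unfold HIx kl
  simp

theorem tauC_nil (m den : ℕ) (l : List (List ℤ × List ℤ)) : tauC ⟨l, []⟩ m den = 0 := by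
  unfold tauC
  simp [pev]

theorem xD_const (n : ℤ) (m t den K : ℕ) (B : Finset ℕ) (x : ℕ) : xD (FK n) m t den K B x = 0 := by
  unfold xD FK
  rw [tauC_nil, List.length_nil, HIx_nil, zero_mul]

theorem lD_const (n : ℤ) (m t den K : ℕ) (B : Finset ℕ) (x : ℕ) : lD (FK n) m t den K B x = 0 := by
  unfold lD FK HL
  rw [tauC_nil, List.length_nil]
  simp only [HIx_nil, sum_const_zero, zero_mul]

theorem fD_const (n : ℤ) (m t den K : ℕ) (B : Finset ℕ) : fD (FK n) m t den K B = n := by
  unfold fD FK HI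
  rw [tauC_nil, List.length_nil]
  simp only [HIx_nil, sum_const_zero, zero_mul]
  simp [pev]

theorem bud_const (D : Dat) (n : ℤ) (sel : N3 → ℕ) {m den : ℕ} (hm : 1 ≤ m) :
    Bud D (FK n) sel m m den where
  ht := by unfold FK; simp
  ht1 := hm
  low := fun k L b s B _ _ => by rw [lD_const, abs_zero, zero_mul]; exact Nat.cast_nonneg _
  lows := fun k L b s B _ _ => by rw [lD_const, abs_zero, zero_mul]; exact Nat.cast_nonneg _
  far := fun k L b s B i1 _ _ _ _ _ => by rw [xD_const, abs_zero, zero_mul]; exact Nat.cast_nonneg _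
  farn := fun k L b s B _ _ _ => by rw [xD_const, abs_zero, zero_mul]; exact Nat.cast_nonneg _
  deep := fun k L b s B _ _ _ => by
    rw [xD_const, xD_const, abs_zero, add_zero, zero_mul]; exact Nat.cast_nonneg _

/-! ### a run with two equal constants -/

theorem run_abs {D : Dat} {n : ℤ} (ha : D.a = FK n) (hk : D.k = FK n) (hn : 0 ≤ n) (hR : D.R = [])
    {X : NI} (hc : chk D X = true) {m den tb : ℕ} (hm : 0 < m) (hden : 0 < den)
    (hx : Mem (1 / (m : ℝ)) X) (Hb : Bud D D.b N3.b m tb den) {k L b s : ℕ} {B : Finset ℕ}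
    (h : Two k L b s B) (hN : L + b + s = 2 * m) : |fD D.b m tb den (k + 2) B| ≤ n := by
  have Ha : Bud D D.a N3.a m m den := by rw [ha]; exact bud_const D n _ hm
  have Hk : Bud D D.k N3.k m m den := by rw [hk]; exact bud_const D n _ hm
  have h1 := chk_sound hc hm hden hx Ha Hk Hb h hN (fun i1 i2 _ _ => by rw [hR]; rfl)
  rw [ha, hk, fD_const] at h1
  obtain ⟨h2, -, h3⟩ := h1
  exact abs_le_of_sq_le_sq (by rw [pow_two (n : ℝ)]; exact h3) h2

end Pool.NW.RV
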